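import Pool.Agent.MP_542436_nt.H94.GlobA

set_option autoImplicit false

namespace Pool.Agent.MP_542436_nt.H94

open Polynomial NumberField Finset Pool.Agent.MP_542436_nt.Sp

theorem s0_aux {m : ℕ} {N0 N1 CD T : ℝ} (h0 : 0 < N0) (h1 : 0 < N1) (hC : 1 ≤ CD) (hT : 1 ≤ T)
    (h : (N0 * N1) ^ (m + 1) ≤ 4 ^ (m + 1) * CD * T ^ m) :
    T ^ (m + 2) ≤ (2 * CD * T / N0 * (2 * CD * T / N1)) ^ (m + 1) := by
  have e : (2 * CD * T / N0 * (2 * CD * T / N1)) ^ (m + 1) =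
      4 ^ (m + 1) * CD ^ (2 * (m + 1)) * T ^ m * T ^ (m + 2) / (N0 * N1) ^ (m + 1) := by
    have : 2 * CD * T / N0 * (2 * CD * T / N1) = 4 * CD ^ 2 * T ^ 2 / (N0 * N1) := by
      field_simp; ring
    rw [this, div_pow]; congr 1; ring
  rw [e, le_div_iff₀ (by positivity), mul_comm]
  refine mul_le_mul_of_nonneg_right (h.trans ?_) (by positivity)
  have a1 : CD ≤ CD ^ (2 * (m + 1)) := le_self_pow₀ hC (by omega)
  gcongr

theorem reg {R : Rg} (hd : 2 ≤ R.d) {X P CD : ℝ} {k0 k1 : ℕ} (hX : 1 < X) (hC : 1 ≤ CD)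
    (hZ : 0 ≤ R.Z P) (p0 : R.P0 ≤ P) (p1 : P ≤ R.P1) (he : 2 * CD ≤ X ^ R.e0)
    (hb : BoxOk R.d CD (X ^ R.Z P) k0 k1) :
    R.Reg P (Real.logb X (2 * CD * X ^ R.Z P / ((2 ^ k0 : ℕ) : ℝ)))
      (Real.logb X (2 * CD * X ^ R.Z P / ((2 ^ k1 : ℕ) : ℝ))) := by
  have hX0 : 0 < X := by linarith
  have hT : 1 ≤ X ^ R.Z P := Real.one_le_rpow hX.le hZ
  have q0 : (1 : ℝ) ≤ ((2 ^ k0 : ℕ) : ℝ) := by exact_mod_cast Nat.one_le_two_pow
  have q1 : (1 : ℝ) ≤ ((2 ^ k1 : ℕ) : ℝ) := by exact_mod_cast Nat.one_le_two_pow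
  have a2 : ((2 ^ k0 : ℕ) : ℝ) ≤ ((2 ^ k1 : ℕ) : ℝ) := by
    exact_mod_cast Nat.pow_le_pow_right (by norm_num) hb.1
  have hA : 0 < 2 * CD * X ^ R.Z P / ((2 ^ k0 : ℕ) : ℝ) := by positivity
  have hB : 0 < 2 * CD * X ^ R.Z P / ((2 ^ k1 : ℕ) : ℝ) := by positivity
  refine ⟨p0, p1, ?_, ?_, ?_⟩
  · refine Real.logb_le_logb_of_le hX hB ?_
    gcongr
  · rw [Real.logb_le_iff_le_rpow hX hA, Real.rpow_add hX0, mul_comm (X ^ R.Z P)]
    refine (div_le_self (by positivity) q0).trans ?_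
    gcongr
  · rw [← Real.logb_mul hA.ne' hB.ne']
    obtain ⟨m, hm⟩ : ∃ m, R.d = m + 2 := ⟨R.d - 2, by omega⟩
    have h2 := hb.2
    rw [hm, show m + 2 - 1 = m + 1 from rfl, Nat.add_sub_cancel] at h2
    have h3 := Real.logb_le_logb_of_le hX (by positivity)
      (s0_aux (by linarith) (by linarith) hC hT h2)
    rw [Real.logb_pow, Real.logb_pow, Real.logb_rpow hX0 hX.ne'] at h3
    rw [hm]
    push_cast at h3 ⊢
    linarith

theorem key_id {R : Rg} (hd : 1 ≤ R.d) {X P c N0 N1 x1 x2 : ℝ} (hX : 0 < X)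
    (h0 : N0 = c * X ^ (R.Z P - x1)) (h1 : N1 = c * X ^ (R.Z P - x2)) :
    N0 ^ (R.d + 1) * N1 ^ (R.d - 1) * X ^ R.l0 P x1 x2 =
      c ^ (2 * R.d) * X ^ (2 - P + R.d * R.Z P - R.del) := by
  obtain ⟨m, hm⟩ : ∃ m, R.d = m + 1 := ⟨R.d - 1, by omega⟩
  have e : 2 - P + R.d * R.Z P - R.del = (R.Z P - x1) * ((m + 2 : ℕ) : ℝ) +
      (R.Z P - x2) * (m : ℝ) + R.l0 P x1 x2 := by
    unfold Rg.l0
    rw [hm]; push_cast; ring
  rw [e, Real.rpow_add hX, Real.rpow_add hX, Real.rpow_mul hX.le, Real.rpow_mul hX.le,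
    Real.rpow_natCast, Real.rpow_natCast, h0, h1, hm, Nat.add_sub_cancel]
  ring

variable {K : Type} [Field K] [NumberField K]

open Classical in
/-- The lines of a box. -/
noncomputable def lines {d : ℕ} (θ : K) (i0 : Fin d) (k0 k1 : ℕ) : Finset (Fin 2 × Fin d → ℤ) :=
  (pbox d i0 (2 ^ k0) (2 ^ k1)).filter fun u => z0 θ u ≠ 0 ∧ ∀ q : ℚ, om θ u ≠ (q : K)

open Classical in
/-- The contribution of one box. -/
theorem box_le (hP : PlcStmt) {R : Rg} {θ : K} (hθ : St R.d θ) {Ce CD CL C0 C1 X P ε : ℝ}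
    (hel : ∀ (c : Fin R.d → ℤ) (N : ℝ), 0 ≤ N → (∀ i, |(c i : ℝ)| ≤ N) →
      house (el θ c) ≤ Ce * N)
    (hCD : 1 ≤ CD) (hX : 1 < X) (hZ : 0 ≤ R.Z P) (p0 : R.P0 ≤ P) (p1 : P ≤ R.P1)
    (he : 2 * CD ≤ X ^ R.e0) (he2 : Ce * (2 * CD) ≤ X ^ (R.e0 / 2))
    (hG : 4 * CD * X ^ R.Z P ≤ X) (hε : 0 ≤ ε) (hCL : 0 ≤ CL) (hC0 : 0 ≤ C0) (hC1 : 0 ≤ C1)
    (hL : ∀ x1 x2 : ℝ, R.Reg P x1 x2 → ∀ ω ζ0 ζ1 : K,
      (∀ q : ℚ, ω ≠ (q : K)) → Rep ω (X ^ x1) (X ^ x2) (X ^ (R.Z P + R.e0 / 2)) ζ0 ζ1 →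
      FewPt (Inc θ ω X (X ^ x1) (X ^ x2) (X ^ P))
        (CL * (X ^ R.l0 P x1 x2 + (if Bad0 R.d θ ω then X ^ R.l1 P x1 x2 0 else 0) +
          ∑ i : Fin 3, if Bad1 R.d θ ω (X ^ lev i) then X ^ R.l1 P x1 x2 (lev i) else 0)))
    (h0 : ∀ (i0 : Fin R.d) (N0 N1 : ℕ), 1 ≤ N0 → N0 ≤ N1 →
      (((pbox R.d i0 N0 N1).filter (fun u => z0 θ u ≠ 0 ∧ Bad0 R.d θ (om θ u))).card : ℝ) ≤
        C0 * ((N0 : ℝ) ^ R.d * (N1 : ℝ) ^ (R.d - 1)))
    (h1 : ∀ (i0 : Fin R.d) (N0 N1 : ℕ) (G : ℝ), 1 ≤ N0 → N0 ≤ N1 → 1 ≤ G →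
      (((pbox R.d i0 N0 N1).filter (fun u => z0 θ u ≠ 0 ∧ Bad1 R.d θ (om θ u) G)).card : ℝ) ≤
        C1 * ((N0 : ℝ) ^ R.d * (N1 : ℝ) ^ (R.d - 1)) * (N1 : ℝ) ^ ε * G ^ ((1 : ℝ) / 10))
    (i0 : Fin R.d) {k0 k1 : ℕ} (hb : BoxOk R.d CD (X ^ R.Z P) k0 k1)
    (F : (Fin 2 × Fin R.d → ℤ) → Finset (ℤ × ℤ))
    (hF : ∀ u, ∀ e ∈ F u, ∃ Q : Pt K, Inc θ (om θ u) X (2 * CD * X ^ R.Z P / ((2 ^ k0 : ℕ) : ℝ))
      (2 * CD * X ^ R.Z P / ((2 ^ k1 : ℕ) : ℝ)) (X ^ P) Q ∧ (Q.a, Q.b) = e) :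
    ∑ u ∈ lines θ i0 k0 k1, ((F u).card : ℝ) ≤
      CL * (3 ^ (2 * R.d) + C0 + 3 * C1) * (2 * CD) ^ (2 * R.d) *
        (X ^ ε * X ^ (2 - P + R.d * R.Z P - R.del)) := by
  have six := hθ.six
  have hX0 : 0 < X := by linarith
  have hT : 1 ≤ X ^ R.Z P := Real.one_le_rpow hX.le hZ
  have hreg := reg (by omega) hX hCD hZ p0 p1 he hb
  have hkk : 2 ^ k0 ≤ 2 ^ k1 := Nat.pow_le_pow_right (by norm_num) hb.1
  have hmul := hb.mul_le (by omega) hCD hT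
  have c0 := h0 i0 (2 ^ k0) (2 ^ k1) Nat.one_le_two_pow hkk
  have c1 := fun i : Fin 3 => h1 i0 (2 ^ k0) (2 ^ k1) (X ^ lev i) Nat.one_le_two_pow hkk
    (Real.one_le_rpow hX.le (by fin_cases i <;> simp [lev] <;> norm_num))
  have cb := pbox_card i0 (N0 := 2 ^ k0) (N1 := 2 ^ k1) Nat.one_le_two_pow Nat.one_le_two_pow
  have hle := fun u (hu : u ∈ pbox R.d i0 (2 ^ k0) (2 ^ k1)) => pbox_le hu hkk
  have q0 : (1 : ℝ) ≤ ((2 ^ k0 : ℕ) : ℝ) := by exact_mod_cast Nat.one_le_two_pow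
  have q1 : (1 : ℝ) ≤ ((2 ^ k1 : ℕ) : ℝ) := by exact_mod_cast Nat.one_le_two_pow
  unfold lines
  generalize ((2 ^ k0 : ℕ) : ℝ) = N0 at *
  generalize ((2 ^ k1 : ℕ) : ℝ) = N1 at *
  generalize pbox R.d i0 (2 ^ k0) (2 ^ k1) = Bx at *
  have hA : 0 < 2 * CD * X ^ R.Z P / N0 := by positivity
  have hB : 0 < 2 * CD * X ^ R.Z P / N1 := by positivity
  have eA := Real.rpow_logb hX0 hX.ne' hA
  have eB := Real.rpow_logb hX0 hX.ne' hB
  generalize Real.logb X (2 * CD * X ^ R.Z P / N0) = x1 at *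
  generalize Real.logb X (2 * CD * X ^ R.Z P / N1) = x2 at *
  have n0 : N0 = 2 * CD * X ^ (R.Z P - x1) := by
    rw [Real.rpow_sub hX0, eA]; field_simp
  have n1 : N1 = 2 * CD * X ^ (R.Z P - x2) := by
    rw [Real.rpow_sub hX0, eB]; field_simp
  have hid := key_id (R := R) (by omega) hX0 n0 n1
  have hl1 : ∀ g : ℝ, X ^ R.l1 P x1 x2 g * X ^ (g / 10) ≤ X ^ R.l0 P x1 x2 * N0 := by
    intro g
    rw [← Real.rpow_add hX0, show R.l1 P x1 x2 g + g / 10 = R.l0 P x1 x2 + (R.Z P - x1) by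
      unfold Rg.l1; ring, Real.rpow_add hX0, n0]
    refine mul_le_mul_of_nonneg_left (le_mul_of_one_le_left (by positivity) (by linarith))
      (by positivity)
  have hN1 : N1 ^ ε ≤ X ^ ε := by
    refine Real.rpow_le_rpow (by linarith) ?_ hε
    nlinarith
  have hXε : 1 ≤ X ^ ε := Real.one_le_rpow hX.le hε
  set L0 := X ^ R.l0 P x1 x2 with hL0
  have hL00 : 0 ≤ L0 := by positivity
  have step : ∀ u ∈ Bx.filter (fun u => z0 θ u ≠ 0 ∧ ∀ q : ℚ, om θ u ≠ (q : K)),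
      ((F u).card : ℝ) ≤ CL * (L0 +
        (if z0 θ u ≠ 0 ∧ Bad0 R.d θ (om θ u) then X ^ R.l1 P x1 x2 0 else 0) +
        ∑ i : Fin 3, if z0 θ u ≠ 0 ∧ Bad1 R.d θ (om θ u) (X ^ lev i) then
          X ^ R.l1 P x1 x2 (lev i) else 0) := by
    intro u hu
    obtain ⟨hu1, hu2, hu3⟩ := mem_filter.1 hu
    have hrep : Rep (om θ u) (X ^ x1) (X ^ x2) (X ^ (R.Z P + R.e0 / 2)) (z0 θ u) (z1 θ u) := by
      have hfin : ∀ N h : ℝ, 0 < N → h ≤ Ce * N →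
          h * (2 * CD * X ^ R.Z P / N) ≤ X ^ (R.Z P + R.e0 / 2) := by
        intro N h hN hh
        refine (mul_le_mul_of_nonneg_right hh (by positivity)).trans ?_
        rw [Real.rpow_add hX0, show Ce * N * (2 * CD * X ^ R.Z P / N) =
          X ^ R.Z P * (Ce * (2 * CD)) by field_simp]
        gcongr
      refine ⟨hP.el_int K _ θ _ hθ, hP.el_int K _ θ _ hθ, hu2, rfl, ?_, ?_⟩
      · rw [eA]; exact hfin N0 _ (by linarith) (hel _ _ (by linarith) (hle u hu1).1)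
      · rw [eB]; exact hfin N1 _ (by linarith) (hel _ _ (by linarith) (hle u hu1).2)
    have := hL x1 x2 hreg _ _ _ hu3 hrep (F u) (by rw [eA, eB]; exact hF u)
    simpa only [hu2, ne_eq, not_false_eq_true, true_and] using this
  refine (sum_le_sum step).trans ?_
  refine (sum_le_sum_of_subset_of_nonneg (filter_subset _ Bx) fun u _ _ => ?_).trans ?_
  · refine mul_nonneg hCL (add_nonneg (add_nonneg hL00 ?_) (sum_nonneg fun i _ => ?_)) <;>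
      split_ifs <;> positivity
  rw [← mul_sum, sum_add_distrib, sum_add_distrib, sum_comm, mul_assoc, mul_assoc]
  refine mul_le_mul_of_nonneg_left ?_ hCL
  simp only [← sum_filter, sum_const, nsmul_eq_mul]
  rw [mul_left_comm ((2 * CD) ^ (2 * R.d)), ← hid]
  set W := N0 ^ (R.d + 1) * N1 ^ (R.d - 1) * L0 with hW
  have hW0 : 0 ≤ W := by positivity
  have hWε : W ≤ X ^ ε * W := le_mul_of_one_le_left hW0 hXε
  have eW : W = N0 ^ R.d * N1 ^ (R.d - 1) * (L0 * N0) := by rw [hW]; ring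
  have b0 : (Bx.card : ℝ) * L0 ≤ 3 ^ (2 * R.d) * (X ^ ε * W) := by
    refine (mul_le_mul_of_nonneg_right cb hL00).trans ?_
    rw [mul_assoc]
    exact mul_le_mul_of_nonneg_left hWε (by positivity)
  have b1 : ((Bx.filter fun u => z0 θ u ≠ 0 ∧ Bad0 R.d θ (om θ u)).card : ℝ) *
      X ^ R.l1 P x1 x2 0 ≤ C0 * (X ^ ε * W) := by
    refine (mul_le_mul_of_nonneg_right c0 (by positivity)).trans ?_
    rw [mul_assoc]
    refine mul_le_mul_of_nonneg_left (le_trans ?_ hWε) hC0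
    have := hl1 0
    rw [zero_div, Real.rpow_zero, mul_one] at this
    rw [eW]
    exact mul_le_mul_of_nonneg_left this (by positivity)
  have b2 : ∀ i : Fin 3,
      ((Bx.filter fun u => z0 θ u ≠ 0 ∧ Bad1 R.d θ (om θ u) (X ^ lev i)).card : ℝ) *
        X ^ R.l1 P x1 x2 (lev i) ≤ C1 * (X ^ ε * W) := by
    intro i
    refine (mul_le_mul_of_nonneg_right (c1 i) (by positivity)).trans ?_
    have h5 := hl1 (lev i)
    rw [← Real.rpow_mul hX0.le, mul_one_div, eW]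
    calc C1 * (N0 ^ R.d * N1 ^ (R.d - 1)) * N1 ^ ε * X ^ (lev i / 10) * X ^ R.l1 P x1 x2 (lev i)
        = C1 * (N1 ^ ε * (N0 ^ R.d * N1 ^ (R.d - 1) *
          (X ^ R.l1 P x1 x2 (lev i) * X ^ (lev i / 10)))) := by ring
      _ ≤ _ := by gcongr
  have b3 := sum_le_sum fun i (_ : i ∈ (univ : Finset (Fin 3))) => b2 i
  rw [sum_const, card_univ, Fintype.card_fin, nsmul_eq_mul] at b3
  push_cast at b3
  linarith

theorem log_count {X ε : ℝ} (hX : 1 ≤ X) (hε : 0 < ε) :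
    ((Nat.log 2 ⌊X⌋₊ + 1 : ℕ) : ℝ) ≤ (2 / ε + 1) * X ^ ε := by
  have h1 : ⌊X⌋₊ ≠ 0 := by
    have := Nat.floor_pos.2 hX
    omega
  have h2 : (2 : ℝ) ^ Nat.log 2 ⌊X⌋₊ ≤ X := by
    have h3 : ((2 ^ Nat.log 2 ⌊X⌋₊ : ℕ) : ℝ) ≤ ⌊X⌋₊ := by exact_mod_cast Nat.pow_log_le_self 2 h1
    push_cast at h3
    exact h3.trans (Nat.floor_le (by linarith))
  have h4 := Real.log_le_log (by positivity) h2
  rw [Real.log_pow] at h4
  have h5 := Real.log_le_rpow_div (by linarith : 0 ≤ X) hε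
  have h6 : (1 : ℝ) / 2 ≤ Real.log 2 := by linarith [Real.log_two_gt_d9]
  have h7 : 1 ≤ X ^ ε := Real.one_le_rpow hX hε.le
  have h8 := mul_le_mul_of_nonneg_left h6 (Nat.cast_nonneg (α := ℝ) (Nat.log 2 ⌊X⌋₊))
  have h9 : 2 / ε * X ^ ε = 2 * (X ^ ε / ε) := by ring
  push_cast
  linarith

open Classical in
theorem glob (hP : PlcStmt) (hLat : LatStmt) (hDir : DirStmt) (hR0 : Rare0Stmt)
    (hR1 : Rare1Stmt) : GlobStmt := by
  intro R K _ _ θ hθ hok ⟨CL, XL, hCL, hL⟩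
  have six := hθ.six
  have hd7 : R.d ≤ 7 := by rcases hok.d with h | h <;> omega
  obtain ⟨Ce, hCe, hel⟩ := hP.el_le K R.d θ
  obtain ⟨CD, hCD, hD⟩ := hDir R.d (by omega)
  obtain ⟨c, hc, hS⟩ := hLat K R.d θ hθ
  obtain ⟨C0, hC0, h0⟩ := hR0 K R.d θ hθ
  have hε : 0 < R.del / 4 := by linarith [hok.del]
  obtain ⟨C1, hC1, h1⟩ := hR1 K R.d θ hθ _ hε
  have he0 := hok.e0
  have he1 := hok.e1
  obtain ⟨X1, hX1⟩ := Filter.eventually_atTop.1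
    ((tendsto_rpow_atTop (y := R.e0 / 2) (by linarith)).eventually_gt_atTop
      ((4 * Ce ^ 2 * CD) ^ 7))
  set Cb := CL * (3 ^ (2 * R.d) + C0 + 3 * C1) * (2 * CD) ^ (2 * R.d) with hCb
  have hCb0 : 0 ≤ Cb := by positivity
  refine ⟨R.del / 4, 4 / c * (R.d * (2 / (R.del / 4) + 1) ^ 2 * Cb), max (max XL X1) 2, hε, ?_⟩
  intro X hX P p0 p1 E hE
  have hXL : XL ≤ X := (le_max_left _ _).trans ((le_max_left _ _).trans hX)
  have hY := hX1 X ((le_max_right _ _).trans ((le_max_left _ _).trans hX))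
  have hX2 : 2 ≤ X := (le_max_right _ _).trans hX
  have hXa : 1 < X := by linarith
  have hX0 : 0 < X := by linarith
  obtain ⟨z1', z2', z3'⟩ := hok.Z P p0 p1
  have hP0 : 199 / 100 ≤ P := hok.P0.trans p0
  have hmono : ∀ {s t : ℝ}, s ≤ t → X ^ s ≤ X ^ t := fun h =>
    Real.rpow_le_rpow_of_exponent_le hXa.le h
  have hT : 1 ≤ X ^ R.Z P := Real.one_le_rpow hXa.le (by linarith)
  have hCe2 : Ce ≤ Ce ^ 2 := by nlinarith
  have g1 : 1 ≤ Ce ^ 2 := hCe.trans hCe2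
  have g2 : CD ≤ Ce ^ 2 * CD := le_mul_of_one_le_left (by linarith) g1
  have g3 : Ce * CD ≤ Ce ^ 2 * CD := mul_le_mul_of_nonneg_right hCe2 (by linarith)
  have g4 : 1 ≤ 4 * Ce ^ 2 * CD := by linarith
  have g5 : 4 * Ce ^ 2 * CD < X ^ (R.e0 / 2) := (le_self_pow₀ g4 (by norm_num)).trans_lt hY
  have g6 : (4 * Ce ^ 2 * CD) ^ 2 < X ^ (R.e0 / 2) :=
    (pow_le_pow_right₀ g4 (by norm_num)).trans_lt hY
  have hpw : ∀ (s : ℝ) (n : ℕ), (X ^ s) ^ n = X ^ (s * n) := fun s n => by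
    rw [Real.rpow_mul hX0.le, Real.rpow_natCast]
  have hbig : (4 * Ce ^ 2 * CD * X ^ R.Z P) ^ 7 < (X ^ P) ^ 2 := by
    rw [mul_pow, hpw, hpw]
    refine (mul_lt_mul_of_pos_right hY (by positivity)).trans_le ?_
    rw [← Real.rpow_add hX0]
    exact hmono (by push_cast; linarith)
  have hAB : 2 * (2 * CD * X ^ R.Z P) ^ 2 < X ^ P := by
    have a1 : 2 * (2 * CD) ^ 2 ≤ (4 * Ce ^ 2 * CD) ^ 2 := by nlinarith
    rw [mul_pow, ← mul_assoc, hpw]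
    refine (mul_lt_mul_of_pos_right (a1.trans_lt g6) (by positivity)).trans_le ?_
    rw [← Real.rpow_add hX0]
    exact hmono (by push_cast; linarith)
  have hG : 4 * CD * X ^ R.Z P ≤ X := by
    have a1 : 4 * CD ≤ X ^ (R.e0 / 2) := by linarith
    refine (mul_le_mul_of_nonneg_right a1 (by positivity)).trans ?_
    rw [← Real.rpow_add hX0]
    exact (hmono (by linarith)).trans_eq (Real.rpow_one X)
  have he2 : Ce * (2 * CD) ≤ X ^ (R.e0 / 2) := by linarith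
  have he : 2 * CD ≤ X ^ R.e0 := by
    have := hmono (show R.e0 / 2 ≤ R.e0 by linarith)
    linarith
  have hTp : X ^ R.Z P < X ^ P := Real.rpow_lt_rpow_of_exponent_lt hXa (by linarith)
  have h4p : 4 * X ^ P ≤ (X ^ R.Z P) ^ R.d := by
    have a1 : 4 ≤ X ^ (R.e0 / 2) := by linarith
    refine (mul_le_mul_of_nonneg_right a1 (by positivity)).trans ?_
    rw [← Real.rpow_add hX0, hpw]
    exact hmono (by linarith)
  have : Nonempty (Pt K) := ⟨⟨0, 0, 0, 0, 0, AbsoluteValue.trivial⟩⟩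
  choose! Q hQ hQe using hE
  have hS' : ∀ e ∈ E, ∃ S : Finset (Fin R.d → ℤ), c * (X ^ R.Z P) ^ R.d / (Q e).p ≤ S.card ∧
      ∀ ξ ∈ S, (∀ i, |(ξ i : ℝ)| ≤ X ^ R.Z P) ∧ (∀ κ : ℤ, (∀ i, κ ∣ ξ i) → IsUnit κ) ∧
        (Q e).v (el θ ξ) ≤ 1 / ((Q e).p : ℝ) := fun e he' =>
    hS X _ _ _ _ _ (hQ e he').1 hT (hTp.trans_le (hQ e he').2.1) (by linarith [(hQ e he').2.2])
  choose! S hS1 hS2 using hS'
  set Kx := Nat.log 2 ⌊X⌋₊ + 1 with hKx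
  set B : Finset (Fin R.d × ℕ × ℕ) := (univ ×ˢ range Kx ×ˢ range Kx).filter
    fun β => BoxOk R.d CD (X ^ R.Z P) β.2.1 β.2.2 with hB
  have hdc := dcount E B (fun β => lines θ β.1 β.2.1 β.2.2) S
    (fun e β u ξ => ∃ x y : ℤ, (ξ = fun i => x * u (0, i) + y * u (1, i)) ∧
      Inc θ (om θ u) X (2 * CD * X ^ R.Z P / ((2 ^ β.2.1 : ℕ) : ℝ))
        (2 * CD * X ^ R.Z P / ((2 ^ β.2.2 : ℕ) : ℝ)) (X ^ P)
        ⟨x, y, (Q e).a, (Q e).b, (Q e).p, (Q e).v⟩)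
    (fun β u e => e ∈ E → ∃ Q' : Pt K,
      Inc θ (om θ u) X (2 * CD * X ^ R.Z P / ((2 ^ β.2.1 : ℕ) : ℝ))
        (2 * CD * X ^ R.Z P / ((2 ^ β.2.2 : ℕ) : ℝ)) (X ^ P) Q' ∧ (Q'.a, Q'.b) = e)
    (by
      intro e he' ξ hξ
      obtain ⟨s1, s2, s3⟩ := hS2 e he' ξ hξ
      obtain ⟨i0, k0, k1, u, x, y, hb, hu, hz, hq, hξ', hinc⟩ :=
        cover hP hθ hd7 hCe hel hCD hD hT (by positivity) hbig (hQ e he').1 (hQ e he').2.1 s1 s2 s3
      have hk1 : k1 < Kx := by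
        have a1 := hb.mul_le (by omega) hCD hT
        have q0 : (1 : ℝ) ≤ ((2 ^ k0 : ℕ) : ℝ) := by exact_mod_cast Nat.one_le_two_pow
        have a2 : ((2 ^ k1 : ℕ) : ℝ) ≤ X :=
          (le_mul_of_one_le_left (by positivity) q0).trans (a1.trans hG)
        have a3 : 2 ^ k1 ≤ ⌊X⌋₊ := Nat.le_floor a2
        exact Nat.lt_succ_of_le (Nat.le_log_of_pow_le (by norm_num) a3)
      refine ⟨(i0, k0, k1), ?_, u, ?_, x, y, hξ', hinc⟩
      · simp only [hB, mem_filter, mem_product, mem_univ, mem_range, true_and]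
        exact ⟨⟨hb.1.trans_lt hk1, hk1⟩, hb⟩
      · exact mem_filter.2 ⟨hu, hz, hq⟩)
    (by
      rintro e β u ξ ⟨x, y, -, hinc⟩ he'
      exact ⟨_, hinc, hQe e he'⟩)
    (by
      rintro e - β - u ξ ⟨x, y, rfl, hinc⟩
      refine ⟨fun i => -x * u (0, i) + -y * u (1, i), ?_⟩
      rintro ξ' ⟨x', y', rfl, hinc'⟩
      have q0 : (1 : ℝ) ≤ ((2 ^ β.2.1 : ℕ) : ℝ) := by exact_mod_cast Nat.one_le_two_pow
      have q1 : (1 : ℝ) ≤ ((2 ^ β.2.2 : ℕ) : ℝ) := by exact_mod_cast Nat.one_le_two_pow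
      have a0 : 0 ≤ 2 * CD * X ^ R.Z P := by positivity
      have a1 := mul_le_mul (div_le_self a0 q0) (div_le_self a0 q1) (by positivity) a0
      rcases two_inc hP hinc hinc' (by rw [pow_two] at hAB; linarith) with ⟨rfl, rfl⟩ | ⟨rfl, rfl⟩
      · exact Or.inl rfl
      · exact Or.inr rfl)
  have hdc' := (Nat.cast_le (α := ℝ)).2 hdc
  push_cast at hdc'
  have hlow : (E.card : ℝ) * (c / 2 * X ^ (R.d * R.Z P - P)) ≤ ∑ e ∈ E, ((S e).card : ℝ) := by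
    rw [← nsmul_eq_mul, ← sum_const]
    refine sum_le_sum fun e he' => le_trans ?_ (hS1 e he')
    have a1 : (0 : ℝ) < (Q e).p := lt_of_lt_of_le (by positivity) (hQ e he').2.1
    rw [le_div_iff₀ a1, hpw, Real.rpow_sub hX0, mul_comm (R.Z P)]
    refine (mul_le_mul_of_nonneg_left (hQ e he').2.2 (by positivity)).trans (le_of_eq ?_)
    field_simp
  have hup := fun β (hβ : β ∈ B) => box_le hP hθ hel hCD hXa (by linarith) p0 p1 he he2 hG hε.le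
    hCL hC0 hC1 (hL X hXL P) h0 h1 β.1 (mem_filter.1 hβ).2
    (fun u => E.filter fun e => e ∈ E → ∃ Q' : Pt K,
      Inc θ (om θ u) X (2 * CD * X ^ R.Z P / ((2 ^ β.2.1 : ℕ) : ℝ))
        (2 * CD * X ^ R.Z P / ((2 ^ β.2.2 : ℕ) : ℝ)) (X ^ P) Q' ∧ (Q'.a, Q'.b) = e)
    (fun u e he' => (mem_filter.1 he').2 (mem_filter.1 he').1)
  have hsum := sum_le_sum hup
  rw [sum_const, nsmul_eq_mul, ← hCb] at hsum
  have hcard : (B.card : ℝ) ≤ R.d * ((2 / (R.del / 4) + 1) * X ^ (R.del / 4)) ^ 2 := by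
    have a1 : B.card ≤ R.d * Kx ^ 2 := by
      refine (card_filter_le _ _).trans (le_of_eq ?_)
      rw [card_product, card_product, card_univ, Fintype.card_fin, card_range, pow_two]
    have a2 : (B.card : ℝ) ≤ R.d * (Kx : ℝ) ^ 2 := by exact_mod_cast a1
    have a3 := log_count hXa.le hε
    rw [← hKx] at a3
    refine a2.trans ?_
    gcongr
  have hfin : (E.card : ℝ) * (c / 2 * X ^ (R.d * R.Z P - P)) ≤
      2 * (R.d * ((2 / (R.del / 4) + 1) * X ^ (R.del / 4)) ^ 2 *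
        (Cb * (X ^ (R.del / 4) * X ^ (2 - P + R.d * R.Z P - R.del)))) := by
    refine hlow.trans (hdc'.trans (mul_le_mul_of_nonneg_left ?_ (by norm_num)))
    push_cast at hsum
    exact hsum.trans (mul_le_mul_of_nonneg_right hcard (by positivity))
  refine le_of_mul_le_mul_right (hfin.trans (le_of_eq ?_)) (by positivity)
  have ex : X ^ (2 - R.del / 4) * X ^ (R.d * R.Z P - P) = X ^ (R.del / 4) * X ^ (R.del / 4) *
      (X ^ (R.del / 4) * X ^ (2 - P + R.d * R.Z P - R.del)) := by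
    simp only [← Real.rpow_add hX0]
    congr 1; ring
  generalize 2 / (R.del / 4) + 1 = γ
  calc _ = 2 * (R.d * γ ^ 2 * Cb) * (X ^ (R.del / 4) * X ^ (R.del / 4) *
        (X ^ (R.del / 4) * X ^ (2 - P + R.d * R.Z P - R.del))) := by ring
    _ = _ := by rw [← ex]; field_simp; ring

end Pool.Agent.MP_542436_nt.H94
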