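import Pool.Agent.MP_542436_nt.Sp.Spec

set_option autoImplicit false

namespace Pool.Agent.MP_542436_nt.H94

open Polynomial NumberField Finset Pool.Agent.MP_542436_nt.Sp

/-- Double counting with fibres of size at most two. -/
theorem dcount {α β υ ξ : Type} (E : Finset α) (B : Finset β) (U : β → Finset υ)
    (S : α → Finset ξ) (rel : α → β → υ → ξ → Prop) (H : β → υ → α → Prop)
    [∀ b u, DecidablePred (H b u)]
    (cover : ∀ e ∈ E, ∀ s ∈ S e, ∃ b ∈ B, ∃ u ∈ U b, rel e b u s)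
    (imp : ∀ e b u s, rel e b u s → H b u e)
    (two : ∀ e ∈ E, ∀ b ∈ B, ∀ u s, rel e b u s → ∃ s', ∀ t, rel e b u t → t = s ∨ t = s') :
    ∑ e ∈ E, (S e).card ≤ 2 * ∑ b ∈ B, ∑ u ∈ U b, (E.filter (H b u)).card := by
  classical
  have h1 : ∀ e ∈ E, (S e).card ≤ ∑ b ∈ B, ∑ u ∈ U b, if H b u e then 2 else 0 := by
    intro e he
    have hs : S e ⊆ B.biUnion fun b => (U b).biUnion fun u => (S e).filter (rel e b u) := by
      intro s hs
      obtain ⟨b, hb, u, hu, h⟩ := cover e he s hs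
      simp only [mem_biUnion, mem_filter]
      exact ⟨b, hb, u, hu, hs, h⟩
    refine (card_le_card hs).trans (card_biUnion_le.trans (sum_le_sum fun b hb => ?_))
    refine card_biUnion_le.trans (sum_le_sum fun u _ => ?_)
    by_cases hne : ((S e).filter (rel e b u)).Nonempty
    · obtain ⟨s, hs⟩ := hne
      have hr := (mem_filter.1 hs).2
      rw [if_pos (imp e b u s hr)]
      obtain ⟨s', h'⟩ := two e he b hb u s hr
      refine (card_le_card (t := {s, s'}) fun t ht => ?_).trans card_le_two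
      simpa using h' t (mem_filter.1 ht).2
    · rw [not_nonempty_iff_eq_empty.1 hne]; simp
  refine (sum_le_sum h1).trans (le_of_eq ?_)
  rw [sum_comm, mul_sum]
  refine sum_congr rfl fun b _ => ?_
  rw [sum_comm, mul_sum]
  refine sum_congr rfl fun u _ => ?_
  rw [← sum_filter, sum_const, smul_eq_mul, mul_comm]

theorem prop_of_det {x y x' y' : ℤ} (h : Int.gcd x y = 1) (h' : Int.gcd x' y' = 1)
    (e : x * y' = x' * y) : (x' = x ∧ y' = y) ∨ (x' = -x ∧ y' = -y) := by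
  obtain ⟨r, s, hrs⟩ := Int.isCoprime_iff_gcd_eq_one.2 h
  obtain ⟨r', s', hrs'⟩ := Int.isCoprime_iff_gcd_eq_one.2 h'
  have e1 : x' = (r * x' + s * y') * x := by linear_combination (-x') * hrs - s * e
  have e2 : y' = (r * x' + s * y') * y := by linear_combination (-y') * hrs + r * e
  have e3 : (r * x' + s * y') * (r' * x + s' * y) = 1 := by
    linear_combination hrs' - r' * e1 - s' * e2
  rcases Int.eq_one_or_neg_one_of_mul_eq_one e3 with h1 | h1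
  · left; rw [h1] at e1 e2; exact ⟨by linarith, by linarith⟩
  · right; rw [h1] at e1 e2; exact ⟨by linarith, by linarith⟩

variable {K : Type} [Field K]

theorem v_int (hP : PlcStmt) {p : ℕ} {v : AbsoluteValue K ℝ} (h : Plc p v) (n : ℤ) :
    v (n : K) ≤ 1 := by
  refine hP.int_le K p v _ h ?_
  simpa using isIntegral_algebraMap (R := ℤ) (A := K) (x := n)

/-- Two incidences with the same place and the same slope are proportional. -/
theorem two_inc (hP : PlcStmt) {θ ω : K} {X A B p0 : ℝ} {x y x' y' a b : ℤ} {p : ℕ}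
    {v : AbsoluteValue K ℝ} (h : Inc θ ω X A B p0 ⟨x, y, a, b, p, v⟩)
    (h' : Inc θ ω X A B p0 ⟨x', y', a, b, p, v⟩) (hAB : 2 * (A * B) < p0) :
    (x' = x ∧ y' = y) ∨ (x' = -x ∧ y' = -y) := by
  have hp : Plc p v := h.sq.plc
  refine prop_of_det h.cop h'.cop ?_
  have e : ((x * y' - x' * y : ℤ) : K) =
      ((x : K) - ω * y) * (y' : K) + -(((x' : K) - ω * y') * (y : K)) := by
    push_cast; ring
  have hp0 : (0 : ℝ) ≤ 1 / (p : ℝ) := by positivity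
  have h1 : v ((x * y' - x' * y : ℤ) : K) ≤ 1 / (p : ℝ) ^ 1 := by
    rw [e, pow_one]
    refine (hp.na _ _).trans (max_le ?_ ?_)
    · rw [map_mul]
      exact (mul_le_mul h.vs (v_int hP hp y') (v.nonneg _) hp0).trans (by rw [mul_one])
    · rw [v.map_neg, map_mul]
      exact (mul_le_mul h'.vs (v_int hP hp y) (v.nonneg _) hp0).trans (by rw [mul_one])
  have h2 := hP.dvd_of K p v _ 1 hp h1
  rw [pow_one] at h2
  have hA : 0 ≤ A := (abs_nonneg _).trans h.hx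
  have h3 : |((x * y' - x' * y : ℤ) : ℝ)| < p := by
    push_cast
    have a1 : |(x : ℝ) * y'| ≤ A * B := by
      rw [abs_mul]; exact mul_le_mul h.hx h'.hy (abs_nonneg _) hA
    have a2 : |(x' : ℝ) * y| ≤ A * B := by
      rw [abs_mul]; exact mul_le_mul h'.hx h.hy (abs_nonneg _) hA
    have a3 := abs_sub ((x : ℝ) * y') ((x' : ℝ) * y)
    have a4 : p0 ≤ p := h.p0
    linarith
  have h4 : |x * y' - x' * y| < (p : ℤ) := by exact_mod_cast h3
  have := Int.eq_zero_of_abs_lt_dvd h2 h4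
  linarith

theorem el_comb {d : ℕ} (θ : K) (u : Fin 2 × Fin d → ℤ) (x y : ℤ) :
    el θ (fun i => x * u (0, i) + y * u (1, i)) = x * z0 θ u + y * z1 θ u := by
  simp only [el, z0, z1, mul_sum, ← sum_add_distrib]
  refine sum_congr rfl fun i _ => ?_
  push_cast; ring

theorem pbox_le {d : ℕ} {i0 : Fin d} {n0 n1 : ℕ} {u : Fin 2 × Fin d → ℤ}
    (hu : u ∈ pbox d i0 n0 n1) (h : n0 ≤ n1) :
    (∀ i, |((u (0, i) : ℤ) : ℝ)| ≤ n0) ∧ ∀ i, |((u (1, i) : ℤ) : ℝ)| ≤ n1 := by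
  have hu' := Fintype.mem_piFinset.1 hu
  constructor
  · intro i
    have := hu' (0, i)
    rw [if_pos (Or.inl rfl), mem_Icc, ← abs_le] at this
    exact_mod_cast this
  · intro i
    have := hu' (1, i)
    have h2 : |u (1, i)| ≤ (n1 : ℤ) := by
      split_ifs at this
      · rw [mem_Icc, ← abs_le] at this
        exact this.trans (by exact_mod_cast h)
      · rwa [mem_Icc, ← abs_le] at this
    exact_mod_cast h2

theorem pbox_mono {d : ℕ} {i0 : Fin d} {n0 n1 N0 N1 : ℕ} (h0 : n0 ≤ N0) (h1 : n1 ≤ N1) :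
    pbox d i0 n0 n1 ⊆ pbox d i0 N0 N1 := by
  refine Fintype.piFinset_subset _ _ fun k => ?_
  split_ifs
  · exact Icc_subset_Icc (by omega) (by omega)
  · exact Icc_subset_Icc (by omega) (by omega)

theorem pbox_card {d : ℕ} (i0 : Fin d) {N0 N1 : ℕ} (h0 : 1 ≤ N0) (h1 : 1 ≤ N1) :
    ((pbox d i0 N0 N1).card : ℝ) ≤ 3 ^ (2 * d) * ((N0 : ℝ) ^ (d + 1) * (N1 : ℝ) ^ (d - 1)) := by
  have hd : 1 ≤ d := Nat.one_le_iff_ne_zero.2 fun h => by subst h; exact i0.elim0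
  have h2 : (pbox d i0 N0 N1).card ≤
      ∏ k : Fin 2 × Fin d, if k.1 = 0 ∨ k.2 = i0 then 3 * N0 else 3 * N1 := by
    unfold pbox
    rw [Fintype.card_piFinset]
    refine prod_le_prod' fun k _ => ?_
    split_ifs
    · rw [Int.card_Icc]; omega
    · rw [Int.card_Icc]; omega
  have h3 : (∏ k : Fin 2 × Fin d, if k.1 = 0 ∨ k.2 = i0 then 3 * N0 else 3 * N1) =
      (3 * N0) ^ d * ((3 * N0) * (3 * N1) ^ (d - 1)) := by
    rw [Fintype.prod_prod_type, Fin.prod_univ_two]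
    congr 1
    · simp
    · rw [← mul_prod_erase univ _ (mem_univ i0), if_pos (Or.inr rfl)]
      congr 1
      rw [prod_congr rfl (g := fun _ => 3 * N1), prod_const, card_erase_of_mem (mem_univ i0),
        card_univ, Fintype.card_fin]
      intro i hi
      rw [if_neg]
      simpa using ne_of_mem_erase hi
  rw [h3] at h2
  have h4 : ((pbox d i0 N0 N1).card : ℝ) ≤ (3 * N0) ^ d * ((3 * N0) * (3 * N1) ^ (d - 1)) := by
    exact_mod_cast h2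
  refine h4.trans (le_of_eq ?_)
  obtain ⟨m, rfl⟩ : ∃ m, d = m + 1 := ⟨d - 1, by omega⟩
  simp only [Nat.add_sub_cancel]
  ring

/-- Admissible dyadic boxes. -/
def BoxOk (d : ℕ) (CD T : ℝ) (k0 k1 : ℕ) : Prop :=
  k0 ≤ k1 ∧ (((2 ^ k0 : ℕ) : ℝ) * ((2 ^ k1 : ℕ) : ℝ)) ^ (d - 1) ≤ 4 ^ (d - 1) * CD * T ^ (d - 2)

theorem BoxOk.mul_le {d : ℕ} {CD T : ℝ} {k0 k1 : ℕ} (h : BoxOk d CD T k0 k1) (hd : 2 ≤ d)
    (hC : 1 ≤ CD) (hT : 1 ≤ T) : ((2 ^ k0 : ℕ) : ℝ) * ((2 ^ k1 : ℕ) : ℝ) ≤ 4 * CD * T := by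
  obtain ⟨m, rfl⟩ : ∃ m, d = m + 2 := ⟨d - 2, by omega⟩
  have h2 := h.2
  rw [show m + 2 - 1 = m + 1 from rfl, Nat.add_sub_cancel] at h2
  refine le_of_pow_le_pow_left₀ (n := m + 1) (by omega) (by positivity) (h2.trans ?_)
  rw [mul_pow, mul_pow]
  have a1 : CD ≤ CD ^ (m + 1) := le_self_pow₀ hC (by omega)
  have a2 : T ^ m ≤ T ^ (m + 1) := pow_le_pow_right₀ hT (by omega)
  gcongr

theorem dyadic {n : ℕ} (h : 1 ≤ n) : n ≤ 2 ^ Nat.clog 2 n ∧ 2 ^ Nat.clog 2 n ≤ 2 * n := by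
  refine ⟨Nat.le_pow_clog (by norm_num) n, ?_⟩
  rcases Nat.eq_or_lt_of_le h with h1 | h1
  · subst h1; simp
  · have h2 := Nat.pow_pred_clog_lt_self (b := 2) (by norm_num) h1
    have h3 := Nat.clog_pos (b := 2) (by norm_num) h1
    obtain ⟨m, hm⟩ : ∃ m, Nat.clog 2 n = m + 1 := ⟨Nat.clog 2 n - 1, by omega⟩
    rw [hm] at h2 ⊢
    simp only [Nat.pred_eq_sub_one, Nat.add_sub_cancel] at h2
    rw [pow_succ]; omega

variable [NumberField K]

theorem norm_le (hP : PlcStmt) {d : ℕ} {θ : K} (hθ : St d θ) {p : ℕ} {v : AbsoluteValue K ℝ}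
    (hp : Plc p v) {α : K} (hi : IsIntegral ℤ α) (h0 : α ≠ 0) {h : ℝ} (hh : house α ≤ h) :
    (v α < 1 → (p : ℝ) ≤ h ^ d) ∧ (v α ≤ 1 / (p : ℝ) ^ 2 → (p : ℝ) ^ 2 ≤ h ^ d) := by
  obtain ⟨N, hN0, hN, hv⟩ := hP.norm K α hi h0
  rw [hθ.rk] at hN
  have hb : |(N : ℝ)| ≤ h ^ d := hN.trans (pow_le_pow_left₀ (house_nonneg α) hh d)
  constructor
  · intro h1
    have h2 := Int.le_of_dvd (abs_pos.2 hN0) ((dvd_abs _ _).2 ((hv p v hp).2 h1))
    have h3 : (p : ℝ) ≤ |(N : ℝ)| := by exact_mod_cast h2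
    exact h3.trans hb
  · intro h1
    have h2 := Int.le_of_dvd (abs_pos.2 hN0)
      ((dvd_abs _ _).2 (hP.dvd_of K p v N 2 hp ((hv p v hp).1.trans h1)))
    have h3 : (p : ℝ) ^ 2 ≤ |(N : ℝ)| := by exact_mod_cast h2
    exact h3.trans hb

/-- The conclusion of the direction lemma. -/
def DirC (d : ℕ) (C : ℝ) : Prop :=
  ∀ (T : ℝ) (ξ : Fin d → ℤ), (∀ i, |(ξ i : ℝ)| ≤ T) →
    (∀ κ : ℤ, (∀ i, κ ∣ ξ i) → IsUnit κ) → (∃ i, 2 ≤ |ξ i|) →
    ∃ (u : Fin 2 × Fin d → ℤ) (i0 : Fin d) (n0 n1 : ℕ) (x y : ℤ), 1 ≤ n0 ∧ n0 ≤ n1 ∧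
      u ∈ pbox d i0 n0 n1 ∧ ((n0 : ℝ) * n1) ^ (d - 1) ≤ C * T ^ (d - 2) ∧ Int.gcd x y = 1 ∧
      (∀ i, ξ i = x * u (0, i) + y * u (1, i)) ∧ |(x : ℝ)| * n0 ≤ C * T ∧ |(y : ℝ)| * n1 ≤ C * T ∧
      ∀ a b : ℤ, (∀ i, a * u (0, i) + b * u (1, i) = 0) → a = 0 ∧ b = 0

/-- Every vector gives an incidence on some line. -/
theorem cover (hP : PlcStmt) {d : ℕ} {θ : K} (hθ : St d θ) (hd : d ≤ 7) {Ce CD T X p0 : ℝ}
    (hCe : 1 ≤ Ce)
    (hel : ∀ (c : Fin d → ℤ) (N : ℝ), 0 ≤ N → (∀ i, |(c i : ℝ)| ≤ N) → house (el θ c) ≤ Ce * N)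
    (hCD : 1 ≤ CD) (hD : DirC d CD) (hT : 1 ≤ T) (hp0 : 0 ≤ p0)
    (hbig : (4 * Ce ^ 2 * CD * T) ^ 7 < p0 ^ 2) {a b : ℤ} {p : ℕ} {v : AbsoluteValue K ℝ}
    (hs : Sq θ X a b p v) (hp : p0 ≤ p) {ξ : Fin d → ℤ} (h1 : ∀ i, |(ξ i : ℝ)| ≤ T)
    (h2 : ∀ κ : ℤ, (∀ i, κ ∣ ξ i) → IsUnit κ) (h3 : v (el θ ξ) ≤ 1 / (p : ℝ)) :
    ∃ (i0 : Fin d) (k0 k1 : ℕ) (u : Fin 2 × Fin d → ℤ) (x y : ℤ), BoxOk d CD T k0 k1 ∧
      u ∈ pbox d i0 (2 ^ k0) (2 ^ k1) ∧ z0 θ u ≠ 0 ∧ (∀ q : ℚ, om θ u ≠ (q : K)) ∧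
      (ξ = fun i => x * u (0, i) + y * u (1, i)) ∧
      Inc θ (om θ u) X (2 * CD * T / ((2 ^ k0 : ℕ) : ℝ)) (2 * CD * T / ((2 ^ k1 : ℕ) : ℝ)) p0
        ⟨x, y, a, b, p, v⟩ := by
  have six := hθ.six
  have hplc := hs.plc
  have hp1 : (1 : ℝ) < p := by exact_mod_cast hplc.prime.one_lt
  have hinv : 1 / (p : ℝ) < 1 := by rw [div_lt_one (by linarith)]; exact hp1
  have hinv2 : 1 / (p : ℝ) ^ 2 < 1 := by
    rw [div_lt_one (by positivity)]; nlinarith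
  have hCe2 : Ce ≤ Ce ^ 2 := by nlinarith
  have hG1 : 1 ≤ 4 * Ce ^ 2 * CD * T := by
    have : 1 ≤ Ce ^ 2 * CD * T := one_le_mul_of_one_le_of_one_le
      (one_le_mul_of_one_le_of_one_le (hCe.trans hCe2) hCD) hT
    linarith
  have hcon : ∀ h : ℝ, 0 ≤ h → h ≤ 4 * Ce ^ 2 * CD * T → ¬ (p : ℝ) ^ 2 ≤ h ^ d := by
    intro h h0 hh hle
    have a1 : h ^ d ≤ (4 * Ce ^ 2 * CD * T) ^ d := pow_le_pow_left₀ h0 hh d
    have a2 : (4 * Ce ^ 2 * CD * T) ^ d ≤ (4 * Ce ^ 2 * CD * T) ^ 7 := pow_le_pow_right₀ hG1 hd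
    have a3 : p0 ^ 2 ≤ (p : ℝ) ^ 2 := pow_le_pow_left₀ hp0 hp 2
    linarith
  have hcon' : ∀ h : ℝ, 0 ≤ h → h ^ 2 ≤ 4 * Ce ^ 2 * CD * T → ¬ (p : ℝ) ≤ h ^ d := by
    intro h h0 hh hle
    refine hcon (h ^ 2) (by positivity) hh ?_
    rw [← pow_mul, mul_comm, pow_mul]
    exact pow_le_pow_left₀ (by positivity) hle 2
  have hξ0 : ξ ≠ 0 := by
    rintro rfl
    exact not_isUnit_zero (h2 0 fun i => dvd_refl _)
  have hel0 : el θ ξ ≠ 0 := fun h => hξ0 (hP.el_inj K d θ ξ hθ h)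
  have heli := hP.el_int K d θ ξ hθ
  have hCT : 1 ≤ CD * T := one_le_mul_of_one_le_of_one_le hCD hT
  have hex : ∃ i, 2 ≤ |ξ i| := by
    by_contra hn
    push Not at hn
    have hle : ∀ i, |(ξ i : ℝ)| ≤ 1 := fun i => by
      have : |ξ i| ≤ 1 := by have := hn i; omega
      exact_mod_cast this
    refine hcon' (Ce * 1) (by positivity) ?_
      ((norm_le hP hθ hplc heli hel0 (hel ξ 1 zero_le_one hle)).1 (h3.trans_lt hinv))
    nlinarith [sq_nonneg Ce]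
  obtain ⟨u, i0, n0, n1, x, y, hn0, hn01, hu, hnn, hxy, hξ, hx, hy, hind⟩ := hD T ξ h1 h2 hex
  obtain ⟨d0, d0'⟩ := dyadic hn0
  obtain ⟨d1, d1'⟩ := dyadic (hn0.trans hn01)
  set k0 := Nat.clog 2 n0
  set k1 := Nat.clog 2 n1
  have r0 : ((2 ^ k0 : ℕ) : ℝ) ≤ 2 * n0 := by exact_mod_cast d0'
  have r1 : ((2 ^ k1 : ℕ) : ℝ) ≤ 2 * n1 := by exact_mod_cast d1'
  have q0 : (0 : ℝ) < ((2 ^ k0 : ℕ) : ℝ) := by positivity
  have q1 : (0 : ℝ) < ((2 ^ k1 : ℕ) : ℝ) := by positivity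
  have hk : k0 ≤ k1 := Nat.clog_mono_right 2 hn01
  have hbox : BoxOk d CD T k0 k1 := by
    refine ⟨hk, ?_⟩
    have a1 : ((2 ^ k0 : ℕ) : ℝ) * ((2 ^ k1 : ℕ) : ℝ) ≤ 4 * ((n0 : ℝ) * n1) := by
      have := mul_le_mul r0 r1 q1.le (by positivity)
      linarith
    refine (pow_le_pow_left₀ (by positivity) a1 _).trans ?_
    rw [mul_pow, mul_assoc]
    exact mul_le_mul_of_nonneg_left hnn (by positivity)
  have hu' : u ∈ pbox d i0 (2 ^ k0) (2 ^ k1) := pbox_mono d0 d1 hu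
  have hcomb : ∀ r s : ℤ, (r : K) * z0 θ u + s * z1 θ u = 0 → r = 0 ∧ s = 0 := by
    intro r s h
    rw [← el_comb] at h
    exact hind r s fun i => congrFun (hP.el_inj K d θ _ hθ h) i
  have hz0 : z0 θ u ≠ 0 := fun h => one_ne_zero (hcomb 1 0 (by simp [h])).1
  have hirr : ∀ q : ℚ, om θ u ≠ (q : K) := by
    intro q hq
    unfold om at hq
    rw [div_eq_iff hz0, Rat.cast_def] at hq
    have hden : ((q.den : ℕ) : K) ≠ 0 := Nat.cast_ne_zero.2 q.den_nz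
    have := (hcomb q.num q.den (by
      rw [Int.cast_natCast]
      field_simp at hq
      linear_combination -hq)).2
    exact q.den_nz (by exact_mod_cast this)
  have hξ' : ξ = fun i => x * u (0, i) + y * u (1, i) := funext hξ
  have i0' : IsIntegral ℤ (z0 θ u) := hP.el_int K d θ _ hθ
  have i1' : IsIntegral ℤ (z1 θ u) := hP.el_int K d θ _ hθ
  have hv0 : v (z0 θ u) = 1 := by
    refine le_antisymm (hP.int_le K p v _ hplc i0') (not_lt.1 fun hlt => ?_)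
    have hb := (pbox_le hu' (Nat.pow_le_pow_right (by norm_num) hk)).1
    refine hcon' (Ce * ((2 ^ k0 : ℕ) : ℝ)) (by positivity) ?_
      ((norm_le hP hθ hplc i0' hz0 (hel _ _ q0.le hb)).1 hlt)
    have a1 := hbox.mul_le (by omega) hCD hT
    have a2 : ((2 ^ k0 : ℕ) : ℝ) ≤ ((2 ^ k1 : ℕ) : ℝ) := by
      exact_mod_cast Nat.pow_le_pow_right (by norm_num) hk
    have a3 : ((2 ^ k0 : ℕ) : ℝ) ^ 2 ≤ 4 * CD * T := by nlinarith
    rw [mul_pow]
    have := mul_le_mul_of_nonneg_left a3 (sq_nonneg Ce)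
    linarith
  have hfac : el θ ξ = z0 θ u * ((x : K) - om θ u * y) := by
    rw [hξ', el_comb]; unfold om; field_simp; ring
  have hvs : v ((x : K) - om θ u * y) = v (el θ ξ) := by rw [hfac, map_mul, hv0, one_mul]
  have hunit : ∀ r : ℤ, Int.gcd r 0 = 1 → v (r : K) = 1 := by
    intro r hr
    rw [Int.gcd_zero_right] at hr
    rcases Int.natAbs_eq_iff.1 hr with h | h <;> simp [h]
  refine ⟨i0, k0, k1, u, x, y, hbox, hu', hz0, hirr, hξ', hs, hp, hxy, ?_, ?_, ?_, ?_, ?_, ?_, ?_⟩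
  · rw [le_div_iff₀ q0]
    have := mul_le_mul_of_nonneg_left r0 (abs_nonneg (x : ℝ))
    change |(x : ℝ)| * _ ≤ _
    linarith
  · rw [le_div_iff₀ q1]
    have := mul_le_mul_of_nonneg_left r1 (abs_nonneg (y : ℝ))
    change |(y : ℝ)| * _ ≤ _
    linarith
  · change y ≠ 0
    rintro rfl
    rw [Int.cast_zero, mul_zero, sub_zero, hunit x hxy] at hvs
    linarith
  · change b ≠ 0
    rintro rfl
    have := hs.vt
    rw [Int.cast_zero, mul_zero, sub_zero, hunit a hs.cop] at this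
    linarith
  · change v (om θ u) ≤ 1
    unfold om
    rw [map_div₀, hv0, div_one, v.map_neg]
    exact hP.int_le K p v _ hplc i1'
  · change v ((x : K) - om θ u * y) ≤ 1 / (p : ℝ)
    rw [hvs]; exact h3
  · change 1 / (p : ℝ) ^ 2 < v ((x : K) - om θ u * y)
    rw [hvs]
    refine not_le.1 fun hle => hcon (Ce * T) (by positivity) ?_
      ((norm_le hP hθ hplc heli hel0 (hel ξ T (by linarith) h1)).2 hle)
    have a1 : Ce * T ≤ Ce ^ 2 * T := mul_le_mul_of_nonneg_right hCe2 (by linarith)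
    have a2 : Ce ^ 2 * T * 1 ≤ Ce ^ 2 * T * CD := mul_le_mul_of_nonneg_left hCD (by positivity)
    have a3 : 0 ≤ Ce ^ 2 * T * CD := by positivity
    linarith

end Pool.Agent.MP_542436_nt.H94
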